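import Pool.Agent.Helper52.BPq.Final

/-!
# Maximum percolation time of `r`-neighbour bootstrap percolation on `q`-ary hypercubes, `r ≥ 3`

For every fixed threshold `r ≥ 3` and every fixed alphabet size `q ≥ 2` the maximum percolation
time `M(Q_{n,q}, r)` has order of magnitude exactly `q ^ n / n`. (For `q = 2` this is in the
library of earlier runs; the case `q ≥ 3` is new.)

Definitions (`Pool.Agent.TH479.BP`): `cube n q` is the graph on `Fin n → Fin q` in which two
vectors are adjacent when they differ in exactly one coordinate; `closure G r A` is the set of all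
vertices infected by the `r`-neighbour process started from `A`; `time G r A` is the first time at
which everything in `closure G r A` is infected; `maxTime G r` is the supremum of `time G r A` over
all `A` with `closure G r A = univ`.

Lower bound for `r = 3`, `q ≥ 3`: in the fibre over `y ∈ Z_q ^ a` the infection runs through
the pairs `(h y + κ, κ)` with `κ` on a path of length about `2 q ^ (s - 1)` in `Z_q ^ s` all of
whose vertices have coordinate sum `0` or `1` (so that it meets every line in at most two points);
`h y = ∑ φ_i (y_i)` is a sum of maps `φ_i : Z_q → Z_q ^ s` chosen greedily such that all their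
differences have weight at least 4, lie on the first half of the path and are distinct for distinct
`i`. The binary layers carry the kernel-checked table of the binary case, and one single infected
vertex for each of the eight further directions fills all other layers at the end.
-/

namespace Pool.Agent.Results.MP_df66b4_co.QaryHypercubeTheta

open Pool.Agent.TH479.BP

/-- For all `q ≥ 2` and `r ≥ 3` there are constants `c, C > 0` such that for all `n` with
`n (q - 1) ≥ r` we have `c * q ^ n / n ≤ M(Q_{n,q}, r) ≤ C * q ^ n / n`; if `n (q - 1) < r` then
`M(Q_{n,q}, r) = 0`. -/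
theorem result : ∀ q r : ℕ, 2 ≤ q → 3 ≤ r →
    (∀ n : ℕ, IsGreatest {t : ℕ | ∃ A : Set (Fin n → Fin q), closure (cube n q) r A = Set.univ ∧
      t = time (cube n q) r A} (maxTime (cube n q) r)) ∧
    (∀ n : ℕ, n * (q - 1) < r → maxTime (cube n q) r = 0) ∧
    ∃ c C : ℝ, 0 < c ∧ 0 < C ∧ ∀ n : ℕ, r ≤ n * (q - 1) →
      c * ((q : ℝ) ^ n / n) ≤ (maxTime (cube n q) r : ℝ) ∧
      (maxTime (cube n q) r : ℝ) ≤ C * ((q : ℝ) ^ n / n) := by
  intro q r hq hr
  refine ⟨fun n => ⟨maxTime_mem _ _, fun t ht => le_csSup (bdd_times _ _) ht⟩, ?_, ?_⟩
  · intro n hn
    exact Pool.Agent.Helper52.BPq.maxTime_zero n q r hn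
  · exact Pool.Agent.Helper52.BPq.theta_all q r hq hr

end Pool.Agent.Results.MP_df66b4_co.QaryHypercubeTheta
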